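import Mathlib
import Pool.Agent.Run7.h405.Base

/-! Piece A1 (elementary facts on the sequences) and A2 (weights) of the project MP_740c6d_ag. -/

namespace Run7.h305

open MvPolynomial Filter Topology Asymptotics
open Run7.h405

theorem D_def (n : ℕ) : D (n+3) = 4 * D (n+1) * D (n+2) - D n := rfl

theorem D_basic (n : ℕ) : 0 < D (n+3) ∧ 3 * D (n+3) ≤ D (n+4) ∧ 3 * D (n+4) ≤ D (n+5) := by
  induction n with
  | zero => decide
  | succ n ih =>
    obtain ⟨h1, h2, h3⟩ := ih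
    refine ⟨by show 0 < D (n+4); omega, by show 3 * D (n+4) ≤ D (n+5); omega, ?_⟩
    show 3 * D (n+5) ≤ D (n+6)
    rw [D_def (n+3)]
    have h4 : D (n+3) ≤ D (n+5) := by omega
    have h5 : 1 ≤ D (n+4) := by omega
    have h6 : 4 * D (n+3+1) * D (n+3+2) ≥ 4 * D (n+5) := by
      show 4 * D (n+4) * D (n+5) ≥ 4 * D (n+5)
      nlinarith
    omega

theorem D_pos (n : ℕ) : 0 < D n := by
  match n with
  | 0 => decide
  | 1 => decide
  | 2 => decide
  | (n+3) => exact (D_basic n).1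

theorem D_growth (n : ℕ) : 3 * D (n+3) ≤ D (n+4) := (D_basic n).2.1

theorem D_mono (n : ℕ) : D (n+1) ≤ D (n+2) := by
  match n with
  | 0 => decide
  | 1 => decide
  | (n+2) =>
    have := D_growth n
    show D (n+3) ≤ D (n+4)
    omega

theorem D_rec (n : ℕ) : D (n+3) + D n = 4 * D (n+1) * D (n+2) := by
  have h : D n ≤ 4 * D (n+1) * D (n+2) := by
    match n with
    | 0 => decide
    | (n+1) =>
      have h1 := D_mono n
      have h2 := D_pos (n+1+1)
      have h3 := D_pos (n+1+2)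
      have h4 : D (n+1) ≤ D (n+1+1) := h1
      nlinarith
  rw [D_def]
  omega

theorem D_recR (n : ℕ) : (D (n+3) : ℝ) + D n = 4 * D (n+1) * D (n+2) := by
  exact_mod_cast D_rec n

theorem D_recZ (n : ℕ) : (D (n+3) : ℤ) + D n = 4 * D (n+1) * D (n+2) := by
  exact_mod_cast D_rec n

theorem D_posR (n : ℕ) : (0:ℝ) < D n := by exact_mod_cast D_pos n

theorem D_one_le (n : ℕ) : (1:ℝ) ≤ D n := by exact_mod_cast D_pos n

theorem gg_rec (a b : ℝ) (n : ℕ) :
    gg a b (n+3) + gg a b n = 4 * D (n+2) * gg a b (n+1) := by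
  have hp : pp (n+3) = 4 * D (n+2) * pp (n+1) - pp n := rfl
  have hq : qq (n+3) = 4 * D (n+2) * qq (n+1) - qq n := rfl
  simp only [gg, hp, hq]
  push_cast
  ring

theorem det_both (n : ℕ) :
    pp n * qq (n+1) - pp (n+1) * qq n = (-1)^(n+1) * D (n+2) ∧
    pp (n+1) * qq (n+2) - pp (n+2) * qq (n+1) = (-1)^(n+2) * D (n+3) ∧
    pp n * qq (n+2) - pp (n+2) * qq n = (-1)^n * D (n+1) := by
  induction n with
  | zero => decide
  | succ n ih =>
    obtain ⟨h1, h2, h3⟩ := ih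
    have hp : pp (n+3) = 4 * D (n+2) * pp (n+1) - pp n := rfl
    have hq : qq (n+3) = 4 * D (n+2) * qq (n+1) - qq n := rfl
    have hD := D_recZ (n+1)
    refine ⟨h2, ?_, ?_⟩
    · show pp (n+2) * qq (n+3) - pp (n+3) * qq (n+2) = (-1)^(n+1+2) * D (n+4)
      rw [hp, hq]
      have e1 : ((-1:ℤ))^(n+1+2) = -(-1)^n := by ring
      have e2 : ((-1:ℤ))^(n+2) = (-1)^n := by ring
      rw [e1]
      rw [e2] at h2
      have hD' : (D (n+4) : ℤ) + D (n+1) = 4 * D (n+2) * D (n+3) := hD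
      linear_combination (-4 * (D (n+2) : ℤ)) * h2 + h3 + (-1)^n * hD'
    · show pp (n+1) * qq (n+3) - pp (n+3) * qq (n+1) = (-1)^(n+1) * D (n+2)
      rw [hp, hq]
      linear_combination h1

theorem det_pq (n : ℕ) : pp n * qq (n+1) - pp (n+1) * qq n = (-1)^(n+1) * D (n+2) :=
  (det_both n).1

theorem det_pq2 (n : ℕ) :
    pp (n+1) * qq (n+3) - pp (n+3) * qq (n+1) = (-1)^(n+1) * D (n+2) := by
  have hp : pp (n+3) = 4 * D (n+2) * pp (n+1) - pp n := rfl
  have hq : qq (n+3) = 4 * D (n+2) * qq (n+1) - qq n := rfl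
  rw [hp, hq]
  linear_combination det_pq n

end Run7.h305
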