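import Mathlib
import Pool.Agent.Run7.h405.Base
import Pool.Agent.Run7.h305.LC.Seq

/-! Piece A2 (weights) of the project MP_740c6d_ag. -/

namespace Run7.h305

open MvPolynomial Filter Topology Asymptotics
open Run7.h405

/-- `Γ_n` -/
noncomputable def Gm (a b : ℝ) (n : ℕ) : ℝ := (D n : ℝ) * gg a b (n+1) - D (n+1) * gg a b n

theorem Gm_rec (a b : ℝ) (n : ℕ) :
    (D (n+1) : ℝ) * Gm a b (n+2) + D (n+3) * Gm a b (n+1) = D (n+2) * Gm a b n := by
  have h1 := gg_rec a b n
  have h2 := D_recR n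
  unfold Gm
  linear_combination ((D (n+1) : ℝ) * D (n+2)) * h1 - (D (n+2) : ℝ) * gg a b (n+1) * h2

theorem Gm_zero (a b : ℝ) : Gm a b 0 = 2 * a - b := by
  simp [Gm, gg, D, pp, qq]; ring

theorem Gm_one (a b : ℝ) : Gm a b 1 = b - a := by
  simp [Gm, gg, D, pp, qq]

/-- linear sequence with given first values -/
noncomputable def Ls (s t : ℝ) (n : ℕ) : ℝ := Gm (s + t) (s + 2 * t) n

theorem Ls_zero (s t : ℝ) : Ls s t 0 = s := by rw [Ls, Gm_zero]; ring
theorem Ls_one (s t : ℝ) : Ls s t 1 = t := by rw [Ls, Gm_one]; ring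

theorem Ls_rec (s t : ℝ) (n : ℕ) :
    (D (n+1) : ℝ) * Ls s t (n+2) + D (n+3) * Ls s t (n+1) = D (n+2) * Ls s t n := Gm_rec _ _ n

theorem Ls_smul (c s t : ℝ) (n : ℕ) : Ls (c * s) (c * t) n = c * Ls s t n := by
  simp only [Ls, Gm, gg]; ring

theorem exists_back (N : ℕ) : ∀ u v : ℝ, 0 ≤ u → 0 ≤ v → 0 < u + v →
    ∃ s t : ℝ, 0 ≤ s ∧ 0 ≤ t ∧ 0 < s + t ∧ Ls s t N = u ∧ Ls s t (N+1) = v ∧
      ∀ n ≤ N + 1, 0 ≤ Ls s t n := by
  induction N with
  | zero =>
    intro u v hu hv huv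
    refine ⟨u, v, hu, hv, huv, Ls_zero _ _, Ls_one _ _, ?_⟩
    intro n hn
    interval_cases n
    · rw [Ls_zero]; exact hu
    · rw [Ls_one]; exact hv
  | succ N ih =>
    intro u v hu hv huv
    have h1 := D_posR (N+1)
    have h2 := D_posR (N+2)
    have h3 := D_posR (N+3)
    have hw : 0 ≤ (D (N+1) * v + D (N+3) * u) / D (N+2) := by positivity
    have hwu : 0 < (D (N+1) * v + D (N+3) * u) / D (N+2) + u := by
      rcases hu.eq_or_lt with h | h
      · rw [← h] at huv ⊢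
        have : 0 < v := by linarith
        have : 0 < (D (N+1) * v + D (N+3) * 0) / D (N+2) := by positivity
        linarith
      · linarith
    obtain ⟨s, t, hs, ht, hst, e1, e2, h⟩ := ih _ u hw hu hwu
    have h4 := Ls_rec s t N
    rw [e1, e2] at h4
    have h5 : (D (N+2) : ℝ) * ((D (N+1) * v + D (N+3) * u) / D (N+2)) = D (N+1) * v + D (N+3) * u := by
      field_simp
    rw [h5] at h4
    have h6 : Ls s t (N+2) = v := by
      have h7 : (D (N+1) : ℝ) * (Ls s t (N+2) - v) = 0 := by linarith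
      rcases mul_eq_zero.1 h7 with h | h
      · exact absurd h h1.ne'
      · linarith
    refine ⟨s, t, hs, ht, hst, e2, h6, ?_⟩
    intro n hn
    rcases Nat.lt_or_ge n (N+2) with h' | h'
    · exact h n (by omega)
    · have : n = N + 2 := by omega
      rw [this, h6]; exact hv

theorem exists_nonneg : ∃ s t : ℝ, 0 ≤ s ∧ 0 ≤ t ∧ s + t = 1 ∧ ∀ n, 0 ≤ Ls s t n := by
  have hcont : ∀ n, Continuous (fun t : ℝ => Ls (1 - t) t n) := by
    intro n
    unfold Ls Gm gg
    fun_prop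
  obtain ⟨K, hK⟩ : ∃ K : ℕ → Set ℝ, K = fun N =>
      Set.Icc 0 1 ∩ ⋂ n : Fin (N+2), {t : ℝ | 0 ≤ Ls (1 - t) t n} := ⟨_, rfl⟩
  have hcl : ∀ N, IsClosed (K N) := by
    intro N
    rw [hK]
    refine isClosed_Icc.inter (isClosed_iInter fun n => ?_)
    exact isClosed_le continuous_const (hcont n)
  have hcp : ∀ N, IsCompact (K N) := fun N =>
    isCompact_Icc.of_isClosed_subset (hcl N) (by rw [hK]; exact Set.inter_subset_left)
  have hne : ∀ N, (K N).Nonempty := by
    intro N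
    obtain ⟨s, t, hs, ht, hst, -, -, h⟩ := exists_back N 0 1 le_rfl zero_le_one (by norm_num)
    refine ⟨t / (s + t), ?_⟩
    rw [hK]
    refine ⟨⟨by positivity, ?_⟩, ?_⟩
    · rw [div_le_one hst]; linarith
    · rw [Set.mem_iInter]
      intro n
      show 0 ≤ Ls (1 - t / (s+t)) (t / (s+t)) n
      have e1 : 1 - t / (s + t) = (s + t)⁻¹ * s := by field_simp; ring
      have e2 : t / (s + t) = (s + t)⁻¹ * t := by field_simp
      rw [e1, e2, Ls_smul]
      have := h n (by omega)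
      positivity
  have hanti : ∀ N, K (N+1) ⊆ K N := by
    intro N
    rw [hK]
    rintro t ⟨h1, h2⟩
    refine ⟨h1, ?_⟩
    rw [Set.mem_iInter] at h2 ⊢
    intro n
    exact h2 ⟨n, by omega⟩
  obtain ⟨t, ht⟩ := IsCompact.nonempty_iInter_of_sequence_nonempty_isCompact_isClosed K hanti hne
    (hcp 0) hcl
  rw [Set.mem_iInter] at ht
  refine ⟨1 - t, t, ?_, ?_, by ring, ?_⟩
  · have := ht 0
    rw [hK] at this
    linarith [this.1.2]
  · have := ht 0
    rw [hK] at this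
    exact this.1.1
  · intro n
    have := ht n
    rw [hK] at this
    exact Set.mem_iInter.1 this.2 ⟨n, by omega⟩

theorem Ls_pos {s t : ℝ} (hst : s + t = 1) (h : ∀ n, 0 ≤ Ls s t n) (n : ℕ) : 0 < Ls s t n := by
  rcases (h n).eq_or_lt with h0 | h0
  swap
  · exact h0
  exfalso
  have hnext : Ls s t (n+1) = 0 := by
    have h1 := Ls_rec s t n
    rw [← h0, mul_zero] at h1
    have h2 : 0 ≤ (D (n+1) : ℝ) * Ls s t (n+2) := mul_nonneg (D_posR _).le (h _)
    have h3 : 0 ≤ (D (n+3) : ℝ) * Ls s t (n+1) := mul_nonneg (D_posR _).le (h _)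
    have h4 : (D (n+3) : ℝ) * Ls s t (n+1) = 0 := by linarith
    rcases mul_eq_zero.1 h4 with h | h
    · exact absurd h (D_posR _).ne'
    · exact h
  have hdown : ∀ k ≤ n, Ls s t (n - k) = 0 ∧ Ls s t (n - k + 1) = 0 := by
    intro k
    induction k with
    | zero => exact fun _ => ⟨h0.symm, hnext⟩
    | succ k ih =>
      intro hk
      obtain ⟨h1, h2⟩ := ih (by omega)
      obtain ⟨m, hm⟩ : ∃ m, m = n - (k+1) := ⟨_, rfl⟩
      have e1 : n - k = m + 1 := by omega
      rw [e1] at h1 h2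
      rw [← hm]
      refine ⟨?_, h1⟩
      have h3 := Ls_rec s t m
      rw [h1, h2, mul_zero, mul_zero, add_zero] at h3
      rcases mul_eq_zero.1 h3.symm with h | h
      · exact absurd h (D_posR _).ne'
      · exact h
  obtain ⟨h1, h2⟩ := hdown n le_rfl
  rw [Nat.sub_self] at h1 h2
  rw [Ls_zero] at h1
  rw [zero_add, Ls_one] at h2
  linarith

/-- basic consequences of positivity of `Γ` -/
theorem Gm_third {a b : ℝ} (h : ∀ n, 0 < Gm a b n) (n : ℕ) : 3 * Gm a b (n+2) ≤ Gm a b (n+1) := by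
  have h1 := Gm_rec a b (n+1)
  have h2 : (0:ℝ) < D (n+2) * Gm a b (n+3) := mul_pos (D_posR _) (h _)
  have h3 : (3:ℝ) * D (n+3) ≤ D (n+4) := by exact_mod_cast D_growth n
  have h4 : (D (n+4) : ℝ) * Gm a b (n+2) ≤ D (n+3) * Gm a b (n+1) := by
    have : (D (n+1+1) : ℝ) * Gm a b (n+1+2) + D (n+1+3) * Gm a b (n+1+1) =
      D (n+1+2) * Gm a b (n+1) := h1
    have e1 : n + 1 + 1 = n + 2 := rfl
    have e2 : n + 1 + 2 = n + 3 := rfl
    have e3 : n + 1 + 3 = n + 4 := rfl
    rw [e1, e2, e3] at this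
    linarith
  have h5 : (3 * D (n+3) : ℝ) * Gm a b (n+2) ≤ D (n+3) * Gm a b (n+1) :=
    (mul_le_mul_of_nonneg_right h3 (h _).le).trans h4
  have h6 := D_posR (n+3)
  have h7 : (D (n+3) : ℝ) * (3 * Gm a b (n+2)) ≤ D (n+3) * Gm a b (n+1) := by linarith
  exact le_of_mul_le_mul_left h7 h6

noncomputable def th (a b : ℝ) (n : ℕ) : ℝ := 4 * gg a b n / D n

theorem th_succ (a b : ℝ) (n : ℕ) :
    th a b (n+1) - th a b n = 4 * Gm a b n / (D n * D (n+1)) := by
  have h1 := (D_posR n).ne'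
  have h2 := (D_posR (n+1)).ne'
  unfold th Gm
  field_simp

theorem th_lt {a b : ℝ} (h : ∀ n, 0 < Gm a b n) (n : ℕ) : th a b n < th a b (n+1) := by
  have h1 := th_succ a b n
  have h2 : 0 < 4 * Gm a b n / (D n * D (n+1)) := by
    have := h n
    have := D_posR n
    have := D_posR (n+1)
    positivity
  linarith

theorem th_mono {a b : ℝ} (h : ∀ n, 0 < Gm a b n) : StrictMono (th a b) :=
  strictMono_nat_of_lt_succ (th_lt h)

/-- `θ_{n+1} + 6 Γ_{n+1}` is nonincreasing -/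
theorem th_anti {a b : ℝ} (h : ∀ n, 0 < Gm a b n) (n : ℕ) :
    th a b (n+2) + 6 * Gm a b (n+2) ≤ th a b (n+1) + 6 * Gm a b (n+1) := by
  have h1 := th_succ a b (n+1)
  have h2 := Gm_third h n
  have h3 : 4 * Gm a b (n+1) / (D (n+1) * D (n+1+1)) ≤ 4 * Gm a b (n+1) := by
    apply div_le_self
    · have := h (n+1); positivity
    · have := D_one_le (n+1)
      have := D_one_le (n+1+1)
      nlinarith
  have e1 : n + 1 + 1 = n + 2 := rfl
  rw [e1] at h1 h3
  linarith

theorem th_bdd {a b : ℝ} (h : ∀ n, 0 < Gm a b n) (n : ℕ) :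
    th a b (n+1) ≤ th a b 1 + 6 * Gm a b 1 := by
  have h1 : ∀ n, th a b (n+1) + 6 * Gm a b (n+1) ≤ th a b 1 + 6 * Gm a b 1 := by
    intro n
    induction n with
    | zero => exact le_rfl
    | succ n ih => exact (th_anti h n).trans ih
  have := h1 n
  have := h (n+1)
  linarith

theorem exists_wt : ∃ a b : ℝ, Wt a b := by
  obtain ⟨s, t, hs, ht, hst, hn⟩ := exists_nonneg
  have hpos := Ls_pos hst hn
  obtain ⟨a, ha⟩ : ∃ a, a = s + t := ⟨_, rfl⟩
  obtain ⟨b, hb⟩ : ∃ b, b = s + 2 * t := ⟨_, rfl⟩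
  have hG : ∀ n, 0 < Gm a b n := by
    intro n
    rw [ha, hb]
    exact hpos n
  have ha0 : 0 < a := by linarith
  have hb0 : 0 < b := by
    have := hG 1
    rw [Gm_one] at this
    linarith
  obtain ⟨L, hL⟩ : ∃ L, Tendsto (th a b) atTop (𝓝 L) := by
    refine ⟨_, tendsto_atTop_ciSup (th_mono hG).monotone ?_⟩
    refine ⟨th a b 1 + 6 * Gm a b 1, ?_⟩
    rintro _ ⟨n, rfl⟩
    exact ((th_mono hG).monotone (Nat.le_succ n)).trans (th_bdd hG n)
  have hL0 : 0 < L := by
    have h1 : th a b 1 ≤ L := (th_mono hG).monotone.ge_of_tendsto hL 1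
    have h2 : 0 < th a b 1 := by
      simp [th, gg, pp, qq, D]
      exact ha0
    linarith
  have hgg : ∀ n, gg (L⁻¹ * a) (L⁻¹ * b) n = L⁻¹ * gg a b n := by
    intro n; unfold gg; ring
  refine ⟨L⁻¹ * a, L⁻¹ * b, by positivity, by positivity, ?_, ?_⟩
  · intro n
    rw [hgg, hgg]
    have h1 := hG n
    unfold Gm at h1
    have h2 : (D n : ℝ) * (L⁻¹ * gg a b (n+1)) - D (n+1) * (L⁻¹ * gg a b n) =
      L⁻¹ * ((D n : ℝ) * gg a b (n+1) - D (n+1) * gg a b n) := by ring
    rw [h2]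
    positivity
  · have h1 := hL.const_mul L⁻¹
    rw [inv_mul_cancel₀ hL0.ne'] at h1
    refine h1.congr fun n => ?_
    rw [hgg]
    unfold th
    ring

theorem Wt_G {a b : ℝ} (h : Wt a b) (n : ℕ) : 0 < Gm a b n := h.incr n

theorem Wt_lim {a b : ℝ} (h : Wt a b) : Tendsto (th a b) atTop (𝓝 1) := h.lim

theorem Wt_th_lt {a b : ℝ} (h : Wt a b) (n : ℕ) : th a b n < 1 :=
  (th_lt (Wt_G h) n).trans_le ((th_mono (Wt_G h)).monotone.ge_of_tendsto (Wt_lim h) (n+1))

theorem Wt.lt_one {a b : ℝ} (h : Wt a b) (n : ℕ) : 4 * gg a b n < D n := by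
  have h1 := Wt_th_lt h n
  unfold th at h1
  rwa [div_lt_one (D_posR n)] at h1

/-- `ε_n` -/
noncomputable def ep (a b : ℝ) (n : ℕ) : ℝ := D n - 4 * gg a b n

theorem ep_pos {a b : ℝ} (h : Wt a b) (n : ℕ) : 0 < ep a b n := by
  have := Wt.lt_one h n
  unfold ep; linarith

theorem Gm_decay {a b : ℝ} (h : Wt a b) (n : ℕ) : Gm a b (n+1) ≤ Gm a b 1 * (1/3)^n := by
  induction n with
  | zero => simp
  | succ n ih =>
    have h1 := Gm_third (Wt_G h) n
    show Gm a b (n+2) ≤ _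
    rw [pow_succ]
    linarith

/-- `1 - θ_n` is small compared with `D n * D (n+1)` -/
theorem one_sub_th {a b : ℝ} (h : Wt a b) (n : ℕ) :
    D (n+1) * D (n+2) * (1 - th a b (n+1)) ≤ 6 * Gm a b (n+1) := by
  -- D(n+1)D(n+2) θ_m + 6Γ_m nonincreasing for m ≥ n+1
  have hD : ∀ k, (D (n+1) : ℝ) * D (n+2) ≤ D (n+1+k) * D (n+2+k) := by
    intro k
    induction k with
    | zero => exact le_rfl
    | succ k ih =>
      refine ih.trans ?_
      have h1 : (D (n+1+k) : ℝ) ≤ D (n+1+(k+1)) := by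
        have := D_mono (n+k)
        have e1 : n + k + 1 = n + 1 + k := by ring
        have e2 : n + k + 2 = n + 1 + (k + 1) := by ring
        rw [e1, e2] at this
        exact_mod_cast this
      have h2 : (D (n+2+k) : ℝ) ≤ D (n+2+(k+1)) := by
        have := D_mono (n+k+1)
        have e1 : n + k + 1 + 1 = n + 2 + k := by ring
        have e2 : n + k + 1 + 2 = n + 2 + (k + 1) := by ring
        rw [e1, e2] at this
        exact_mod_cast this
      exact mul_le_mul h1 h2 (D_posR _).le (D_posR _).le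
  have hstep : ∀ k, D (n+1) * D (n+2) * th a b (n+1+k) + 6 * Gm a b (n+1+k) ≤
      D (n+1) * D (n+2) * th a b (n+1) + 6 * Gm a b (n+1) := by
    intro k
    induction k with
    | zero => exact le_rfl
    | succ k ih =>
      refine le_trans ?_ ih
      have h1 := th_succ a b (n+1+k)
      have h2 := Gm_third (Wt_G h) (n+k)
      have e1 : n + k + 2 = n + 1 + (k + 1) := by ring
      have e2 : n + k + 1 = n + 1 + k := by ring
      rw [e1, e2] at h2
      have e3 : n + 1 + k + 1 = n + 1 + (k + 1) := by ring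
      rw [e3] at h1
      have h3 : D (n+1) * D (n+2) * (4 * Gm a b (n+1+k) / (D (n+1+k) * D (n+1+(k+1)))) ≤
          4 * Gm a b (n+1+k) := by
        have h4 := hD k
        have h5 : (0:ℝ) < D (n+1+k) * D (n+1+(k+1)) := mul_pos (D_posR _) (D_posR _)
        rw [← mul_div_assoc, div_le_iff₀ h5]
        have e4 : n + 2 + k = n + 1 + (k + 1) := by ring
        rw [e4] at h4
        have h6 := (Wt_G h (n+1+k)).le
        nlinarith
      rw [← h1] at h3
      linarith
  have hlim : Tendsto (fun k => D (n+1) * D (n+2) * th a b (n+1+k)) atTop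
      (𝓝 (D (n+1) * D (n+2) * 1)) := by
    refine Tendsto.const_mul _ ?_
    have := (tendsto_add_atTop_iff_nat (n+1)).2 (Wt_lim h)
    refine this.congr fun k => ?_
    rw [add_comm]
  have hle : (D (n+1) * D (n+2) * 1 : ℝ) ≤ D (n+1) * D (n+2) * th a b (n+1) + 6 * Gm a b (n+1) := by
    refine le_of_tendsto' hlim fun k => ?_
    have h1 := hstep k
    have h2 := Wt_G h (n+1+k)
    linarith
  linarith

theorem ep_small {a b : ℝ} (h : Wt a b) (n : ℕ) :
    D (n+2) * ep a b (n+1) ≤ 6 * Gm a b 1 * (1/3)^n := by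
  have h1 := one_sub_th h n
  have h2 : D (n+1) * (1 - th a b (n+1)) = ep a b (n+1) := by
    have := (D_posR (n+1)).ne'
    unfold ep th
    field_simp
  have h3 := Gm_decay h n
  have h4 : (D (n+1) : ℝ) * D (n+2) * (1 - th a b (n+1)) = D (n+2) * ep a b (n+1) := by
    rw [← h2]; ring
  rw [h4] at h1
  linarith

theorem pp_bound (n : ℕ) : |(pp n : ℝ)| ≤ 2 ^ n * D n ∧ |(qq n : ℝ)| ≤ 2 ^ n * D n := by
  induction n using Nat.strong_induction_on with
  | _ n ih =>
    match n with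
    | 0 => simp [pp, qq, D]
    | 1 => simp [pp, qq, D]
    | 2 => simp [pp, qq, D]
    | 3 => simp [pp, qq, D]; norm_num
    | (n+1+3) =>
      obtain ⟨k, hk⟩ : ∃ k, k = n + 1 := ⟨_, rfl⟩
      have hk1 : 1 ≤ k := by omega
      rw [← hk] at ih ⊢
      clear hk
      rename_i n'
      obtain ⟨n, hn⟩ : ∃ n, n = k := ⟨_, rfl⟩
      rw [← hn] at ih hk1 ⊢
      have hp : pp (n+3) = 4 * D (n+2) * pp (n+1) - pp n := rfl
      have hq : qq (n+3) = 4 * D (n+2) * qq (n+1) - qq n := rfl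
      have key : ∀ x y : ℝ, |x| ≤ 2 ^ n * D n → |y| ≤ 2 ^ (n+1) * D (n+1) →
          |4 * D (n+2) * y - x| ≤ 2 ^ (n+3) * D (n+3) := by
        intro x y hx hy
        have h1 := D_recR n
        have h2 := D_posR (n+2)
        have h3 : |4 * D (n+2) * y - x| ≤ 4 * D (n+2) * |y| + |x| := by
          refine (abs_sub _ _).trans ?_
          rw [abs_mul, abs_of_pos (by positivity : (0:ℝ) < 4 * D (n+2))]
        have h4 : 4 * (D (n+2) : ℝ) * |y| ≤ 4 * D (n+2) * (2 ^ (n+1) * D (n+1)) := by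
          gcongr
        have h5 : (D n : ℝ) ≤ D (n+3) := by
          obtain ⟨i, rfl⟩ : ∃ i, n = i + 1 := ⟨n - 1, by omega⟩
          have a1 := D_mono i
          have a2 := D_mono (i+1)
          have a3 := D_mono (i+2)
          have a4 : D (i+1) ≤ D (i+1+3) := by
            show D (i+1) ≤ D (i+4)
            exact a1.trans (a2.trans a3)
          exact_mod_cast a4
        have h6 : 4 * (D (n+2) : ℝ) * (2 ^ (n+1) * D (n+1)) = 2 * 2 ^ n * (D (n+3) + D n) := by
          rw [h1, pow_succ]; ring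
        have h7 : (0:ℝ) < 2 ^ n := by positivity
        have h8 : (2:ℝ) ^ (n+3) = 8 * 2 ^ n := by ring
        rw [h8]
        have h9 : (2:ℝ) ^ n * D n ≤ 2 ^ n * D (n+3) := by gcongr
        rw [h6] at h4
        have h10 : (0:ℝ) ≤ 2 ^ n * D (n+3) := by positivity
        linarith
      constructor
      · rw [hp]
        push_cast
        exact key _ _ (ih n (by omega)).1 (ih (n+1) (by omega)).1
      · rw [hq]
        push_cast
        exact key _ _ (ih n (by omega)).2 (ih (n+1) (by omega)).2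

/-- the integer determinants vanish eventually -/
theorem ep_tendsto {a b : ℝ} (h : Wt a b) : Tendsto (fun n => ep a b (n+1)) atTop (𝓝 0) := by
  have h1 : Tendsto (fun n : ℕ => 6 * Gm a b 1 * (1/3 : ℝ)^n) atTop (𝓝 0) := by
    have := (tendsto_pow_atTop_nhds_zero_of_lt_one (r := (1/3:ℝ)) (by norm_num) (by norm_num)).const_mul
      (6 * Gm a b 1)
    rwa [mul_zero] at this
  refine squeeze_zero (fun n => (ep_pos h _).le) (fun n => ?_) h1
  refine le_trans ?_ (ep_small h n)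
  have h2 := D_one_le (n+2)
  have h3 := ep_pos h (n+1)
  nlinarith

theorem int_eq_zero_of_tendsto (w : ℕ → ℤ) (h : Tendsto (fun n => (w n : ℝ)) atTop (𝓝 0)) :
    ∃ N, ∀ n ≥ N, w n = 0 := by
  obtain ⟨N, hN⟩ := (Metric.tendsto_atTop.1 h) 1 one_pos
  refine ⟨N, fun n hn => ?_⟩
  have h1 := hN n hn
  rw [Real.dist_eq, sub_zero] at h1
  have h2 : |w n| < 1 := by exact_mod_cast h1
  exact Int.abs_lt_one_iff.1 h2

theorem Wt.indep {a b : ℝ} (h : Wt a b) (l m n : ℤ) (h0 : (l : ℝ) + m * a + n * b = 0) :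
    l = 0 ∧ m = 0 ∧ n = 0 := by
  obtain ⟨s, hs⟩ : ∃ s : ℕ → ℤ, s = fun j => m * qq j - n * pp j := ⟨_, rfl⟩
  obtain ⟨C, hC⟩ : ∃ C : ℝ, C = |(m:ℝ)| + |(n:ℝ)| := ⟨_, rfl⟩
  have hC0 : 0 ≤ C := by rw [hC]; positivity
  have hsb : ∀ j, |(s j : ℝ)| ≤ C * (2 ^ j * D j) := by
    intro j
    rw [hs]
    push_cast
    refine (abs_sub _ _).trans ?_
    rw [abs_mul, abs_mul, hC, add_mul]
    have := pp_bound j
    gcongr
    · exact this.2
    · exact this.1
  -- the determinant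
  obtain ⟨W, hW⟩ : ∃ W : ℕ → ℤ, W = fun j =>
      l * (16 * (pp j * qq (j+1) - pp (j+1) * qq j)) -
      m * ((D j : ℤ) * (-4 * qq (j+1)) - (D (j+1) : ℤ) * (-4 * qq j)) +
      n * ((D j : ℤ) * (-4 * pp (j+1)) - (D (j+1) : ℤ) * (-4 * pp j)) := ⟨_, rfl⟩
  have hWe : ∀ j, (W j : ℝ) = 4 * (ep a b j * s (j+1) - ep a b (j+1) * s j) := by
    intro j
    rw [hW, hs]
    have hl : (l : ℝ) = - (m * a + n * b) := by linarith
    push_cast
    rw [hl]
    unfold ep gg
    ring
  have hW0 : Tendsto (fun j => (W (j+1) : ℝ)) atTop (𝓝 0) := by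
    have hlim : Tendsto (fun j : ℕ => 4 * (C * (6 * Gm a b 1 * 8)) * (2/3 : ℝ)^j) atTop (𝓝 0) := by
      have := (tendsto_pow_atTop_nhds_zero_of_lt_one (r := (2/3:ℝ)) (by norm_num)
        (by norm_num)).const_mul (4 * (C * (6 * Gm a b 1 * 8)))
      rwa [mul_zero] at this
    refine squeeze_zero_norm (fun j => ?_) hlim
    rw [Real.norm_eq_abs, hWe]
    have h1 : ep a b (j+1) * |(s (j+2) : ℝ)| ≤ C * (6 * Gm a b 1 * 4) * (2/3 : ℝ)^j := by
      have e1 := hsb (j+2)
      have e2 := ep_small h j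
      have e3 := (ep_pos h (j+1)).le
      calc ep a b (j+1) * |(s (j+2) : ℝ)| ≤ ep a b (j+1) * (C * (2 ^ (j+2) * D (j+2))) := by gcongr
        _ = C * 2 ^ (j+2) * (D (j+2) * ep a b (j+1)) := by ring
        _ ≤ C * 2 ^ (j+2) * (6 * Gm a b 1 * (1/3)^j) := by gcongr
        _ = C * (6 * Gm a b 1 * 4) * (2/3 : ℝ)^j := by
          have : (2/3 : ℝ)^j = 2^j * (1/3)^j := by rw [← mul_pow]; norm_num
          rw [this]; ring
    have h2 : ep a b (j+2) * |(s (j+1) : ℝ)| ≤ C * (6 * Gm a b 1 * 4) * (2/3 : ℝ)^j := by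
      have e1 := hsb (j+1)
      have e2 := ep_small h (j+1)
      have e3 := (ep_pos h (j+2)).le
      have e4 : (D (j+1) : ℝ) ≤ D (j+3) := by
        have a1 := D_mono j
        have a2 := D_mono (j+1)
        exact_mod_cast a1.trans a2
      have e5 : (0:ℝ) < Gm a b 1 := Wt_G h 1
      calc ep a b (j+2) * |(s (j+1) : ℝ)| ≤ ep a b (j+2) * (C * (2 ^ (j+1) * D (j+1))) := by gcongr
        _ ≤ ep a b (j+2) * (C * (2 ^ (j+1) * D (j+3))) := by gcongr
        _ = C * 2 ^ (j+1) * (D (j+3) * ep a b (j+2)) := by ring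
        _ ≤ C * 2 ^ (j+1) * (6 * Gm a b 1 * (1/3)^(j+1)) := by gcongr
        _ = C * (6 * Gm a b 1 * (2/3)) * (2/3 : ℝ)^j := by
          have : (2/3 : ℝ)^j = 2^j * (1/3)^j := by rw [← mul_pow]; norm_num
          rw [this]; ring
        _ ≤ C * (6 * Gm a b 1 * 4) * (2/3 : ℝ)^j := by gcongr; norm_num
    have h3 : |4 * (ep a b (j+1) * (s (j+1+1) : ℝ) - ep a b (j+1+1) * s (j+1))| ≤
        4 * (ep a b (j+1) * |(s (j+2) : ℝ)| + ep a b (j+2) * |(s (j+1) : ℝ)|) := by
      rw [abs_mul, abs_of_pos (by norm_num : (0:ℝ) < 4)]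
      refine mul_le_mul_of_nonneg_left ?_ (by norm_num)
      refine (abs_sub _ _).trans ?_
      rw [abs_mul, abs_mul, abs_of_pos (ep_pos h _), abs_of_pos (ep_pos h _)]
    refine h3.trans ?_
    linarith
  obtain ⟨N, hN⟩ := int_eq_zero_of_tendsto (fun j => W (j+1)) hW0
  -- s_j / ep_j is constant
  have hrel : ∀ j ≥ N, ep a b (j+1) * (s (j+2) : ℝ) = ep a b (j+2) * s (j+1) := by
    intro j hj
    have h1 := hWe (j+1)
    have h2 : W (j+1) = 0 := hN j hj
    rw [h2] at h1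
    push_cast at h1
    have e1 : j + 1 + 1 = j + 2 := rfl
    rw [e1] at h1
    linarith
  have hconst : ∀ k, (s (N+1+k) : ℝ) = (s (N+1) / ep a b (N+1)) * ep a b (N+1+k) := by
    intro k
    induction k with
    | zero =>
      have := (ep_pos h (N+1)).ne'
      rw [Nat.add_zero]
      field_simp
    | succ k ih =>
      have h1 := hrel (N+k) (by omega)
      have e1 : N + k + 1 = N + 1 + k := by ring
      have e2 : N + k + 2 = N + 1 + (k + 1) := by ring
      rw [e1, e2, ih] at h1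
      have h2 := (ep_pos h (N+1+k)).ne'
      have h3 : ep a b (N+1+k) * ((s (N+1+(k+1)) : ℝ) -
        (s (N+1) / ep a b (N+1)) * ep a b (N+1+(k+1))) = 0 := by
        rw [mul_sub, h1]; ring
      rcases mul_eq_zero.1 h3 with h4 | h4
      · exact absurd h4 h2
      · linarith
  have hs0 : Tendsto (fun k => (s (N+1+k) : ℝ)) atTop (𝓝 0) := by
    have h1 : Tendsto (fun k => (s (N+1) / ep a b (N+1) : ℝ) * ep a b (N+1+k)) atTop (𝓝 0) := by
      have h2 := (tendsto_add_atTop_iff_nat N).2 (ep_tendsto h)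
      have h3 := h2.const_mul (s (N+1) / ep a b (N+1) : ℝ)
      rw [mul_zero] at h3
      refine h3.congr fun k => ?_
      have : k + N + 1 = N + 1 + k := by ring
      rw [this]
    exact h1.congr fun k => (hconst k).symm
  obtain ⟨M, hM⟩ := int_eq_zero_of_tendsto (fun k => s (N+1+k)) hs0
  obtain ⟨j, hj⟩ : ∃ j, j = N + 1 + M := ⟨_, rfl⟩
  have hsj : s j = 0 := by rw [hj]; exact hM M le_rfl
  have hsj1 : s (j+1) = 0 := by
    have := hM (M+1) (by omega)
    rw [hj]
    exact this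
  have hdet : pp j * qq (j+1) - pp (j+1) * qq j ≠ 0 := by
    rw [det_pq]
    refine mul_ne_zero (pow_ne_zero _ (by norm_num)) ?_
    exact_mod_cast (D_pos _).ne'
  rw [hs] at hsj hsj1
  simp only at hsj hsj1
  have hm : m = 0 := by
    have : m * (pp j * qq (j+1) - pp (j+1) * qq j) = 0 := by
      linear_combination pp j * hsj1 - pp (j+1) * hsj
    rcases mul_eq_zero.1 this with h | h
    · exact h
    · exact absurd h hdet
  have hn : n = 0 := by
    have : n * (pp j * qq (j+1) - pp (j+1) * qq j) = 0 := by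
      linear_combination qq j * hsj1 - qq (j+1) * hsj
    rcases mul_eq_zero.1 this with h | h
    · exact h
    · exact absurd h hdet
  refine ⟨?_, hm, hn⟩
  rw [hm, hn] at h0
  push_cast at h0
  rw [zero_mul, zero_mul, add_zero, add_zero] at h0
  exact_mod_cast h0

end Run7.h305
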