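import Mathlib
import Pool.Agent.Run7.h405.Base
import Pool.Agent.Run7.h305.LC.Wts

/-! Piece A3 (trapping) of the project MP_740c6d_ag. -/

namespace Run7.h305

open MvPolynomial Filter Topology Asymptotics
open Run7.h405

/-- abstract claim -/
theorem trap_claim (t r : ℕ → ℝ) (hr : ∀ n, 0 < r n)
    (ht : ∀ n, t (n+3) = min (min (t (n+1)) (t (n+2))) 1 +
      r n * (min (min (t (n+1)) (t (n+2))) 1 - t n))
    (hlim : ∀ ε > 0, ∃ N, ∀ n ≥ N, 1 - ε < t n) (n : ℕ) :
    t (n+1) ≤ min (t (n+2)) 1 := by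
  by_contra hcon
  push Not at hcon
  obtain ⟨E, hE⟩ : ∃ E : ℕ → ℝ, E = fun n => min (min (t (n+1)) (t (n+2))) 1 := ⟨_, rfl⟩
  have ht' : ∀ n, t (n+3) = E n + r n * (E n - t n) := by
    intro n; rw [hE]; exact ht n
  -- if E n < t n then t (n+3) < E n
  have hstep : ∀ n, E n < t n → t (n+3) < E n := by
    intro n h
    have h1 := ht' n
    have h2 : r n * (E n - t n) < 0 := mul_neg_of_pos_of_neg (hr n) (by linarith)
    linarith
  have hE1 : E (n+1) < t (n+1) := by
    rw [hE]
    show min (min (t (n+2)) (t (n+3))) 1 < t (n+1)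
    refine lt_of_le_of_lt ?_ hcon
    exact min_le_min (min_le_left _ _) le_rfl
  have h4 : t (n+4) < E (n+1) := hstep _ hE1
  have h4a : t (n+4) < t (n+2) := h4.trans_le (by
    rw [hE]; exact (min_le_left _ _).trans (min_le_left _ _))
  have h4b : t (n+4) < t (n+3) := h4.trans_le (by
    rw [hE]; exact (min_le_left _ _).trans (min_le_right _ _))
  have h4c : t (n+4) < 1 := h4.trans_le (by rw [hE]; exact min_le_right _ _)
  have hE2 : E (n+2) ≤ t (n+4) := by
    rw [hE]; exact (min_le_left _ _).trans (min_le_right _ _)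
  have h5 : t (n+5) < t (n+4) := (hstep (n+2) (hE2.trans_lt h4a)).trans_le hE2
  have hdec : ∀ k, t (n+4+k) < t (n+3+k) ∧ t (n+5+k) < t (n+4+k) := by
    intro k
    induction k with
    | zero => exact ⟨h4b, h5⟩
    | succ k ih =>
      obtain ⟨i1, i2⟩ := ih
      have e1 : n + 4 + (k+1) = n + 5 + k := by ring
      have e2 : n + 3 + (k+1) = n + 4 + k := by ring
      have e3 : n + 5 + (k+1) = n + 3 + k + 3 := by ring
      rw [e1, e2]
      refine ⟨i2, ?_⟩
      rw [e3]
      have hE3 : E (n+3+k) ≤ t (n+5+k) := by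
        rw [hE]
        refine (min_le_left _ _).trans ((min_le_right _ _).trans (le_of_eq ?_))
        congr 1; ring
      exact (hstep (n+3+k) (by linarith)).trans_le hE3
  have hall : ∀ k, t (n+4+k) ≤ t (n+4) := by
    intro k
    induction k with
    | zero => exact le_rfl
    | succ k ih =>
      have := (hdec k).2
      have e1 : n + 4 + (k+1) = n + 5 + k := by ring
      rw [e1]
      linarith
  obtain ⟨N, hN⟩ := hlim (1 - t (n+4)) (by linarith)
  have h6 := hN (n+4+N) (by omega)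
  have h7 := hall N
  linarith

/-- a linear recursion with a solution tending to zero -/
theorem lin_zero (g r : ℕ → ℝ) (hr : ∀ n, 0 ≤ r n) (h1 : g 1 = 0)
    (hg : ∀ n, g (n+3) = g (n+2) + r (n+1) * g (n+1)) (hlim : Tendsto g atTop (𝓝 0)) :
    g 2 ≤ 0 := by
  by_contra hcon
  push Not at hcon
  have h : ∀ n, g 2 ≤ g (n+2) ∧ 0 ≤ g (n+1) := by
    intro n
    induction n with
    | zero => exact ⟨le_rfl, h1.ge⟩
    | succ n ih =>
      obtain ⟨i1, i2⟩ := ih
      refine ⟨?_, ?_⟩
      · show g 2 ≤ g (n+3)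
        rw [hg]
        have := mul_nonneg (hr (n+1)) i2
        linarith
      · show 0 ≤ g (n+2)
        linarith
  have h2 : g 2 ≤ 0 := by
    have h3 := (tendsto_add_atTop_iff_nat 2).2 hlim
    exact ge_of_tendsto' h3 fun n => (h n).1
  linarith

theorem Wt.trap {a b : ℝ} (h : Wt a b) (e : ℕ → ℝ)
    (he : ∀ n, e (n+3) + e n =
      min (min (4 * D (n+2) * e (n+1)) (4 * D (n+1) * e (n+2))) (D (n+1) * D (n+2)))
    (h0 : e 1 + e 2 + e 3 = min 1 (min (4 * e 1) (min (4 * e 2) (4 * e 3))))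
    (hge : ∀ n, gg a b n ≤ e n) : e 1 = a ∧ e 2 = b ∧ e 3 = 3 * a - b := by
  obtain ⟨t, ht⟩ : ∃ t : ℕ → ℝ, t = fun n => 4 * e n / D n := ⟨_, rfl⟩
  obtain ⟨r, hr⟩ : ∃ r : ℕ → ℝ, r = fun n => (D n : ℝ) / D (n+3) := ⟨_, rfl⟩
  have hr0 : ∀ n, 0 < r n := by
    intro n
    rw [hr]
    exact div_pos (D_posR _) (D_posR _)
  have hte : ∀ n, e n = D n * t n / 4 := by
    intro n
    have := (D_posR n).ne'
    rw [ht]
    field_simp
  have htrec : ∀ n, t (n+3) = min (min (t (n+1)) (t (n+2))) 1 +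
      r n * (min (min (t (n+1)) (t (n+2))) 1 - t n) := by
    intro n
    have h1 := he n
    have p0 := D_posR n
    have p1 := D_posR (n+1)
    have p2 := D_posR (n+2)
    have p3 := D_posR (n+3)
    have e1 : 4 * (D (n+2) : ℝ) * e (n+1) = (D (n+1) * D (n+2)) * t (n+1) := by
      rw [hte (n+1)]; ring
    have e2 : 4 * (D (n+1) : ℝ) * e (n+2) = (D (n+1) * D (n+2)) * t (n+2) := by
      rw [hte (n+2)]; ring
    have e3 : (D (n+1) : ℝ) * D (n+2) = (D (n+1) * D (n+2)) * 1 := by ring
    rw [e1, e2] at h1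
    nth_rewrite 3 [e3] at h1
    have hp : (0:ℝ) ≤ D (n+1) * D (n+2) := by positivity
    rw [← mul_min_of_nonneg _ _ hp, ← mul_min_of_nonneg _ _ hp] at h1
    obtain ⟨E, hE⟩ : ∃ E, E = min (min (t (n+1)) (t (n+2))) 1 := ⟨_, rfl⟩
    rw [← hE] at h1 ⊢
    have h2 := D_recR n
    rw [hte (n+3), hte n] at h1
    have h3 : (D (n+3) : ℝ) * t (n+3) + D n * t n = (D (n+3) + D n) * E := by
      rw [h2]; linarith
    rw [hr]
    field_simp
    linarith
  have htge : ∀ n, th a b n ≤ t n := by
    intro n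
    rw [ht]
    unfold th
    have h1 := hge n
    exact div_le_div_of_nonneg_right (by linarith) (D_posR n).le
  have hlim1 : ∀ ε > 0, ∃ N, ∀ n ≥ N, 1 - ε < t n := by
    intro ε hε
    obtain ⟨N, hN⟩ := (Metric.tendsto_atTop.1 (Wt_lim h)) ε hε
    refine ⟨N, fun n hn => ?_⟩
    have h1 := hN n hn
    rw [Real.dist_eq, abs_lt] at h1
    have := htge n
    linarith
  have hclaim := trap_claim t r hr0 htrec hlim1
  have hle1 : ∀ n, t (n+1) ≤ 1 := fun n => (hclaim n).trans (min_le_right _ _)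
  have hmono : ∀ n, t (n+1) ≤ t (n+2) := fun n => (hclaim n).trans (min_le_left _ _)
  have hlin : ∀ n, t (n+3) = t (n+1) + r n * (t (n+1) - t n) := by
    intro n
    have h1 := htrec n
    have h2 : min (min (t (n+1)) (t (n+2))) 1 = t (n+1) := by
      rw [min_eq_left (hmono n), min_eq_left (hle1 n)]
    rwa [h2] at h1
  have hthlin : ∀ n, th a b (n+3) = th a b (n+1) + r n * (th a b (n+1) - th a b n) := by
    intro n
    have h1 := gg_rec a b n
    have h2 := D_recR n
    have p0 := D_posR n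
    have p1 := D_posR (n+1)
    have p2 := D_posR (n+2)
    have p3 := D_posR (n+3)
    have hg : ∀ n, gg a b n = D n * th a b n / 4 := by
      intro n
      have := (D_posR n).ne'
      unfold th
      field_simp
    rw [hg (n+3), hg n, hg (n+1)] at h1
    have h3 : (D (n+3) : ℝ) * th a b (n+3) + D n * th a b n = (D (n+3) + D n) * th a b (n+1) := by
      rw [h2]; linarith
    rw [hr]
    field_simp
    linarith
  have htlim : Tendsto t atTop (𝓝 1) := by
    rw [← tendsto_add_atTop_iff_nat 1]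
    refine tendsto_of_tendsto_of_tendsto_of_le_of_le
      ((tendsto_add_atTop_iff_nat 1).2 (Wt_lim h)) tendsto_const_nhds (fun n => htge _) hle1
  -- differences
  obtain ⟨d', hd'⟩ : ∃ d' : ℕ → ℝ, d' = fun n => t (n+1) - t n := ⟨_, rfl⟩
  obtain ⟨d, hd⟩ : ∃ d : ℕ → ℝ, d = fun n => th a b (n+1) - th a b n := ⟨_, rfl⟩
  have hd'r : ∀ n, d' (n+2) + d' (n+1) = r n * d' n := by
    intro n
    rw [hd']
    show (t (n+3) - t (n+2)) + (t (n+2) - t (n+1)) = r n * (t (n+1) - t n)
    rw [hlin n]; ring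
  have hdr : ∀ n, d (n+2) + d (n+1) = r n * d n := by
    intro n
    rw [hd]
    show (th a b (n+3) - th a b (n+2)) + (th a b (n+2) - th a b (n+1)) =
      r n * (th a b (n+1) - th a b n)
    rw [hthlin n]; ring
  have hdpos : ∀ n, 0 < d n := by
    intro n
    rw [hd]
    have := th_lt (Wt_G h) n
    simp only
    linarith
  have hd'0 : Tendsto d' atTop (𝓝 0) := by
    rw [hd']
    have := ((tendsto_add_atTop_iff_nat 1).2 htlim).sub htlim
    rwa [sub_self] at this
  have hd0 : Tendsto d atTop (𝓝 0) := by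
    rw [hd]
    have := ((tendsto_add_atTop_iff_nat 1).2 (Wt_lim h)).sub (Wt_lim h)
    rwa [sub_self] at this
  obtain ⟨c, hc⟩ : ∃ c, c = d' 1 / d 1 := ⟨_, rfl⟩
  obtain ⟨f, hf⟩ : ∃ f : ℕ → ℝ, f = fun n => d' n - c * d n := ⟨_, rfl⟩
  have hf1 : f 1 = 0 := by
    have := (hdpos 1).ne'
    rw [hf, hc]
    simp only
    field_simp
    ring
  have hfr : ∀ n, f (n+2) + f (n+1) = r n * f n := by
    intro n
    have h1 := hd'r n
    have h2 := hdr n
    rw [hf]
    simp only
    linear_combination h1 - c * h2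
  have hf0 : Tendsto f atTop (𝓝 0) := by
    rw [hf]
    have := hd'0.sub (hd0.const_mul c)
    rwa [mul_zero, sub_zero] at this
  have hsgn : ∀ s : ℝ, Tendsto (fun n => s * ((-1)^n * f n)) atTop (𝓝 0) := by
    intro s
    have h1 : Tendsto (fun n => |s| * |f n|) atTop (𝓝 0) := by
      have := (hf0.abs).const_mul |s|
      rwa [abs_zero, mul_zero] at this
    refine squeeze_zero_norm (fun n => le_of_eq ?_) h1
    rw [Real.norm_eq_abs, abs_mul, abs_mul, abs_pow, abs_neg, abs_one, one_pow, one_mul]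
  have hf2 : f 2 = 0 := by
    have key : ∀ s : ℝ, s * f 2 ≤ 0 := by
      intro s
      have := lin_zero (fun n => s * ((-1)^n * f n)) r (fun n => (hr0 n).le)
        (by rw [hf1]; ring) (fun n => by
          have h1 := hfr (n+1)
          have h2 : f (n+3) = r (n+1) * f (n+1) - f (n+2) := by
            have : f (n+1+2) + f (n+1+1) = r (n+1) * f (n+1) := h1
            have e1 : n + 1 + 2 = n + 3 := rfl
            have e2 : n + 1 + 1 = n + 2 := rfl
            rw [e1, e2] at this
            linarith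
          rw [h2]
          ring) (hsgn s)
      linarith [this]
    have k1 := key 1
    have k2 := key (-1)
    linarith
  have hfall : ∀ n, f (n+1) = 0 ∧ f (n+2) = 0 := by
    intro n
    induction n with
    | zero => exact ⟨hf1, hf2⟩
    | succ n ih =>
      refine ⟨ih.2, ?_⟩
      have h1 := hfr (n+1)
      have : f (n+3) + f (n+2) = r (n+1) * f (n+1) := h1
      rw [ih.1, ih.2] at this
      show f (n+3) = 0
      linarith
  -- values at 1
  have D1 : (D 1 : ℝ) = 1 := by norm_num [D]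
  have D2 : (D 2 : ℝ) = 1 := by norm_num [D]
  have D3 : (D 3 : ℝ) = 1 := by norm_num [D]
  have t1 : t 1 = 4 * e 1 := by rw [ht]; simp only; rw [D1, div_one]
  have t2 : t 2 = 4 * e 2 := by rw [ht]; simp only; rw [D2, div_one]
  have t3 : t 3 = 4 * e 3 := by rw [ht]; simp only; rw [D3, div_one]
  have g1 : th a b 1 = 4 * a := by unfold th gg; rw [D1]; simp [pp, qq]
  have g2 : th a b 2 = 4 * b := by unfold th gg; rw [D2]; simp [pp, qq]
  have g3 : th a b 3 = 4 * (3 * a - b) := by
    unfold th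
    rw [D3, div_one]
    have h1 := gg_rec a b 0
    have h2 : gg a b 3 + gg a b 0 = 4 * D 2 * gg a b 1 := h1
    rw [D2] at h2
    have h3 : gg a b 0 = a + b := by simp [gg, pp, qq]
    have h4 : gg a b 1 = a := by simp [gg, pp, qq]
    rw [h3, h4] at h2
    linarith
  have m1 : t 1 ≤ t 2 := hmono 0
  have m2 : t 2 ≤ t 3 := hmono 1
  have m3 : t 1 ≤ 1 := hle1 0
  have hmin : min 1 (min (4 * e 1) (min (4 * e 2) (4 * e 3))) = t 1 := by
    rw [← t1, ← t2, ← t3, min_eq_left m2, min_eq_left m1, min_eq_right m3]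
  rw [hmin] at h0
  -- t 1 = 2 d' 1 + d' 2
  have q1 : t 1 = 2 * d' 1 + d' 2 := by
    rw [hd']
    show t 1 = 2 * (t 2 - t 1) + (t 3 - t 2)
    linarith
  have q2 : th a b 1 = 2 * d 1 + d 2 := by
    rw [hd]
    show th a b 1 = 2 * (th a b 2 - th a b 1) + (th a b 3 - th a b 2)
    linarith
  have q3 : d' 1 = c * d 1 := by
    have := hf1; rw [hf] at this; simp only at this; linarith
  have q4 : d' 2 = c * d 2 := by
    have := hf2; rw [hf] at this; simp only at this; linarith
  have q5 : t 1 = c * th a b 1 := by rw [q1, q2, q3, q4]; ring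
  have q6 : ∀ n, t (n+1) = c * th a b (n+1) := by
    intro n
    induction n with
    | zero => exact q5
    | succ n ih =>
      have h1 := (hfall n).1
      rw [hf, hd', hd] at h1
      simp only at h1
      have e1 : n + 1 + 1 = n + 2 := rfl
      rw [e1] at h1 ⊢
      linarith
  have hc1 : c = 1 := by
    have l1 : Tendsto (fun n => t (n+1)) atTop (𝓝 1) := (tendsto_add_atTop_iff_nat 1).2 htlim
    have l2 : Tendsto (fun n => c * th a b (n+1)) atTop (𝓝 (c * 1)) :=
      ((tendsto_add_atTop_iff_nat 1).2 (Wt_lim h)).const_mul c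
    have l3 : Tendsto (fun n => t (n+1)) atTop (𝓝 (c * 1)) := l2.congr fun n => (q6 n).symm
    have := tendsto_nhds_unique l3 l1
    linarith
  have r1 := q6 0
  have r2 := q6 1
  have r3 := q6 2
  rw [hc1, one_mul] at r1 r2 r3
  have r1' : t 1 = th a b 1 := r1
  have r2' : t 2 = th a b 2 := r2
  have r3' : t 3 = th a b 3 := r3
  rw [t1, g1] at r1'
  rw [t2, g2] at r2'
  rw [t3, g3] at r3'
  refine ⟨by linarith, by linarith, by linarith⟩

end Run7.h305
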